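import Pool.Agent.AND2B.Stmts
import Pool.Agent.ANP.StmtsD
import Pool.Agent.Helper61_ANP.Tor

/-!
# AND2B (MP_1906c1_mp): the top-level assembly

`Scal`: the scales. `SclStmt`: they exist. `AnaStmt`: the analysis. `top`: these and the protocol
(`PrtStmt`) give `ANE.Tr3Stmt`.
-/

set_option autoImplicit false

open MeasureTheory ProbabilityTheory

open scoped BigOperators NNReal ENNReal Matrix

noncomputable section

namespace Pool.Agent.AND2B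

open Pool.Agent.BED (Tor gau)
open Pool.Agent.ANE (SolT)
open Pool.Agent.ANP

/-- the clocks; `th` is the ratio of the clocks of two consecutive stages -/
def cl (w th : ℝ≥0) (k : ℕ) : ℝ≥0 := w * th ^ k

/-- the clock at the start of super-stage `n` -/
def sg (w th : ℝ≥0) (kk : ℕ → ℕ) (n : ℕ) : ℝ := (cl w th (kk n) : ℝ)

/-- the failure probability of every test in super-stage `n ≤ N` -/
def pf (w th : ℝ≥0) (kk : ℕ → ℕ) (β : ℝ) (N n : ℕ) : ℝ :=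
  if n ≤ N then Real.exp (-(sg w th kk n) ^ (-β)) else 0

/-- the torus with its blocks -/
abbrev Gt (d μ J N : ℕ) (l r : ℕ → ℕ) : Geo (Tor d (2 ^ μ)) :=
  ANP.H61.geoT d μ l (fun n => 2 ^ r n) J N

/-- THE SCALES. `α` the ratio of the scales (`sg (n + 1) ≈ sg n ^ α`), `c₁` the exponent of the size of a
cluster, `C₁` the exponent of the size of a block; super-stages `0, …, N`, the torus has the side
`2 ^ μ`; `Kn` bounds the number of kills for one cluster, `Dn` the number of sites of a block of level `n`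
which die in super-stage `n`; `β` the exponent of the failure probabilities, `t` the target -/
structure Scal (d : ℕ) (th : ℝ≥0) (c₁ C₁ : ℝ) (α J : ℕ) (β : ℝ) (w : ℝ≥0) (t : ℝ) (N μ : ℕ)
    (kk l r Kn Dn : ℕ → ℕ) : Prop where
  k0 : kk 0 = 0
  km : ∀ n, kk n < kk (n + 1)
  low : ∀ n ≤ N, sg w th kk n ^ (α + 1) ≤ sg w th kk (n + 1)
  up : ∀ n ≤ N, sg w th kk (n + 1) ≤ sg w th kk n ^ (α - 1)
  fin : sg w th kk (N + 1) ≤ t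
  lm : Monotone l
  rlow : ∀ n ≤ N, sg w th kk (n + 1) ^ (-(3 : ℝ)) ≤ 2 ^ r n
  rup : ∀ n ≤ N, (2 ^ r n : ℝ) ≤ sg w th kk (n + 1) ^ (-(4 : ℝ))
  llow : ∀ n ≤ N, sg w th kk (n + 1) ^ (-(5 : ℝ)) ≤ 2 ^ l n
  lup : ∀ n ≤ N, (2 ^ l n : ℝ) ≤ sg w th kk (n + 1) ^ (-C₁)
  /-- the blocks fit into the torus -/
  lN : l N + 6 ≤ μ
  /-- there are no frozen sites at the end -/
  rN : μ ≤ r (N + 1)
  mN : sg w th kk (N + 1) ^ (-(5 : ℝ)) ≤ 2 ^ μ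
  mU : (2 ^ μ : ℝ) ≤ sg w th kk (N + 1) ^ (-(C₁ * (α + 1)))
  /-- the size of a cluster -/
  clu : ∀ n, 1 ≤ n → n ≤ N →
    (3 ^ d * J * (6 * 2 ^ l (n - 1) + 1) ^ d : ℝ) ≤ sg w th kk (n + 1) ^ (-c₁)
  scl : Scl (Gt d μ J N l r) d
  kn : ∀ n ≤ N, Kn n = ⌊sg w th kk (n + 1) ^ (-(6 / 5 : ℝ))⌋₊
  d0 : Dn 0 = 0
  dl : ∀ n ≤ N, (Dn n : ℝ) ≤ sg w th kk (n + 1) ^ (-(5 / 4 : ℝ))
  dn : ∀ n, 1 ≤ n →
    3 ^ d * J * (Kn n + 3 ^ d * J * (6 * 2 ^ l (n - 1) + 1) ^ d) ≤ Dn n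
  ds : ∑ i ∈ Finset.range (N + 2), (3 ^ d * Dn i : ℝ) / 2 ^ l i ≤ 1 / 4
  dM : 16 * (1 + 2 * ∑ i ∈ Finset.range (N + 2), (3 ^ d * Dn i : ℝ)) ≤ 2 ^ μ
  pi : ∀ n ≤ N, pf w th kk β N n * ((kk (n + 1) : ℝ) - kk n + ((2 ^ l n : ℕ) : ℝ) ^ d) ≤ 1
  phi : ANP.H72.Phi (Gt d μ J N l r).ch J (N + 2) ((Gt d μ J N l r).near 0)
    (fun i => pf w th kk β N i.1 *
      ((kk (i.1 + 1) : ℝ) - kk i.1 + ((2 ^ l i.1 : ℕ) : ℝ) ^ d)) ≤ 1 / 4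

/-- SCL: THE SCALES EXIST. -/
def SclStmt : Prop :=
  ∀ (d : ℕ) (th : ℝ≥0) (c₁ : ℝ), 3 ≤ d → 1 / 2 ≤ th → th < 1 → 0 < c₁ →
    ∃ (C₁ : ℝ) (α J : ℕ), 2 ≤ α ∧ ∀ β : ℝ, 0 < β →
    ∃ w₁ : ℝ, 0 < w₁ ∧ w₁ ≤ 1 ∧ ∀ (w : ℝ≥0) (t : ℝ) (M₀ : ℕ), 0 < w → (w : ℝ) ≤ w₁ → 0 < t →
      ∃ (N μ : ℕ) (kk l r Kn Dn : ℕ → ℕ), M₀ ≤ 2 ^ μ ∧
        Scal d th c₁ C₁ α J β w t N μ kk l r Kn Dn

/-- ANA: THE ANALYSIS. The order of the constants: `th`, `c₁` (size of the clusters), then `C₁, α, J`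
(scales), then `β` and `w₀`, then the torus. -/
def AnaStmt : Prop :=
  ∀ (d : ℕ) (a : ℝ), 3 ≤ d → 0 < a → ∃ (th : ℝ≥0) (c₁ : ℝ), 1 / 2 ≤ th ∧ th < 1 ∧ 0 < c₁ ∧
    ∀ (C₁ : ℝ) (α J : ℕ), 2 ≤ α → ∃ β w₀ : ℝ, 0 < β ∧ 0 < w₀ ∧
      ∀ (w : ℝ≥0) (E : ℝ), 0 < w → (w : ℝ) ≤ w₀ → |E| < 2 * d - a →
      ∃ ε : ℝ, 0 < ε ∧ ∀ (A : ℝ) (R : ℕ), ∃ t : ℝ, 0 < t ∧
        ∀ (N μ : ℕ) (kk l r Kn Dn : ℕ → ℕ), Scal d th c₁ C₁ α J β w t N μ kk l r Kn Dn →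
          ∀ L : ℝ, 1 ≤ L → Nonempty (Ana (Gt d μ J N l r) d 0 (FF d (2 ^ μ) E A ε R L) th kk
            (cl w th) Kn Dn (pf w th kk β N))

theorem cl_succ (w th : ℝ≥0) (k : ℕ) : cl w th (k + 1) = th * cl w th k := by
  unfold cl
  rw [pow_succ]
  ring

/-- THE ASSEMBLY -/
theorem top (hP : ANP.PrtStmt) (hS : SclStmt) (hA : AnaStmt) (hW : WlpStmt) (hM : MswStmt)
    (hM' : ANE.Ms3Stmt) : ANE.Tr3Stmt := by
  intro d a hd ha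
  obtain ⟨th, c₁, hth, hth', hc₁, hA⟩ := hA d a hd ha
  obtain ⟨C₁, α, J, hα, hS⟩ := hS d th c₁ hd hth hth' hc₁
  obtain ⟨β, w₀, hβ, hw₀, hA⟩ := hA C₁ α J hα
  obtain ⟨w₁, hw₁, hw₁', hS⟩ := hS β hβ
  have hth0 : 0 < th := lt_of_lt_of_le (by norm_num) hth
  refine ⟨Real.sqrt (min w₀ w₁), Real.sqrt_pos.2 (lt_min hw₀ hw₁), fun σ hσ hσ' => ?_⟩
  refine (ae_restrict_iff' measurableSet_Ioo).2 (Filter.Eventually.of_forall fun E hE => ?_)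
  have hE' : |E| < 2 * d - a := abs_lt.2 hE
  have h2 : σ ^ 2 ≤ min w₀ w₁ := by
    rw [← sq_abs]
    calc |σ| ^ 2 ≤ Real.sqrt (min w₀ w₁) ^ 2 := by gcongr
      _ = min w₀ w₁ := Real.sq_sqrt (lt_min hw₀ hw₁).le
  set w : ℝ≥0 := ⟨σ ^ 2, sq_nonneg σ⟩ with hw
  have hwc : (w : ℝ) = σ ^ 2 := rfl
  have hw0 : 0 < w := by
    rw [← NNReal.coe_pos, hwc]; positivity
  obtain ⟨ε, hε, hA⟩ := hA w E hw0 (by rw [hwc]; exact h2.trans (min_le_left _ _)) hE'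
  refine ⟨ε, hε, fun A R => ?_⟩
  obtain ⟨t, ht, hA⟩ := hA A R
  obtain ⟨N, μ, kk, l, r, Kn, Dn, hμ, hS⟩ := hS w t 8 hw0
    (by rw [hwc]; exact h2.trans (min_le_right _ _)) ht
  refine ⟨2 ^ μ, inferInstance, hμ, fun v hv => ?_⟩
  have hvw : v = w := NNReal.coe_injective (by rw [hv, hwc])
  subst hvw
  obtain ⟨L, hL, hWL⟩ := hW d (2 ^ μ) E (1 / 4) w hw0.ne' (by norm_num)
  have hG : GeoOk (Gt d μ J N l r) d := ANP.H61.trg d μ l _ hS.lm J N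
  have hFF : MeasurableSet (FF d (2 ^ μ) E A ε R L) :=
    (hM d (2 ^ μ) E L).inter (hM' d (2 ^ μ) E A ε R)
  have h3 := hP (Tor d (2 ^ μ)) (Gt d μ J N l r) d 0 (FF d (2 ^ μ) E A ε R L) th kk (cl w th) Kn Dn
    (pf w th kk β N)
    (fun n => pf w th kk β N n * ((kk (n + 1) : ℝ) - kk n + ((2 ^ l n : ℕ) : ℝ) ^ d))
    hFF hG hS.scl hth0 hth' hS.dn hS.k0 hS.km (cl_succ w th)
    (by unfold cl; rw [pow_zero, mul_one]; exact hw0)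
    (fun n => by unfold pf; split_ifs <;> positivity)
    (fun n => le_rfl)
    (fun n => by
      rcases Nat.lt_or_ge N n with h | h
      · unfold pf
        rw [if_neg (by omega), zero_mul]
        exact zero_le_one
      · exact hS.pi n h)
    (hA N μ kk l r Kn Dn hS L hL) hS.phi
  have h4 : gau d (2 ^ μ) w (FF d (2 ^ μ) E A ε R L) ≤ ENNReal.ofReal (1 / 2) := by
    have h5 : (gm (fun _ : Tor d (2 ^ μ) => (0 : ℝ)) (fun _ => cl w th 0)).real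
        (FF d (2 ^ μ) E A ε R L) ≤ 1 / 2 := h3
    have h6 : gm (fun _ : Tor d (2 ^ μ) => (0 : ℝ)) (fun _ => cl w th 0) = gau d (2 ^ μ) w := by
      unfold gm gau cl
      rw [pow_zero, mul_one]
    rw [h6] at h5
    have : IsProbabilityMeasure (gau d (2 ^ μ) w) := by unfold gau; infer_instance
    rw [← ENNReal.ofReal_toReal (measure_ne_top (gau d (2 ^ μ) w) _)]
    exact ENNReal.ofReal_le_ofReal h5
  calc gau d (2 ^ μ) w {U | SolT d (2 ^ μ) E A ε R U}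
      ≤ gau d (2 ^ μ) w (FF d (2 ^ μ) E A ε R L ∪ {U | ¬ WL E L U}) := by
        refine measure_mono fun U hU => ?_
        by_cases h : WL E L U
        · exact Or.inl ⟨h, hU⟩
        · exact Or.inr h
    _ ≤ gau d (2 ^ μ) w (FF d (2 ^ μ) E A ε R L) + gau d (2 ^ μ) w {U | ¬ WL E L U} :=
        measure_union_le _ _
    _ ≤ ENNReal.ofReal (1 / 2) + ENNReal.ofReal (1 / 4) := add_le_add h4 hWL
    _ = ENNReal.ofReal (3 / 4) := by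
        rw [← ENNReal.ofReal_add (by norm_num) (by norm_num)]; norm_num

end Pool.Agent.AND2B
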