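import Pool.Agent.AND2B.DoneK
import Pool.Agent.Helper28_AHH.KilT

/-!
# AND2B: continuous spectrum in the bulk at weak disorder, without hypotheses

`finT0 : ANE.FinStmt`: for `d ≥ 3` and `a > 0` there is `s₀ > 0` such that for `0 < |σ| ≤ s₀`, almost
surely, the spectrum of `Δ + σ ξ` is the whole line and there is no eigenvalue in `|E| < 2 d - a`.
-/

set_option autoImplicit false

namespace Pool.Agent.AND2B

universe u

/-- CONTINUOUS SPECTRUM AT WEAK DISORDER -/
theorem finT0 : ANE.FinStmt.{u} :=
  doneK H28.kilT

end Pool.Agent.AND2B
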