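import Pool.Agent.LE.DefsQD
import Pool.Agent.ANP.Defs
import Pool.Agent.ANR.Defs

/-!
# AND2B (MP_1906c1_mp): the common language

The torus, the network of a configuration, the event `WL`, the failure set, the interface with the end.

The absorption of the site `x` is `e₀ + s_x Im mb_x` for every site; `s_x` is the clock, `mb_x` the gauge.
The number `e₀ > 0` is chosen after everything else (after the torus and the last clock) and is so tiny
that it has no effect; a dead site (clock `0`) is simply a real potential.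
-/

set_option autoImplicit false

open MeasureTheory ProbabilityTheory

open scoped BigOperators NNReal ENNReal Matrix

noncomputable section

namespace Pool.Agent.AND2B

open Pool.Agent.Anderson hiding box mem_box card_box
open Pool.Agent.Loc Pool.Agent.Mob Pool.Agent.Helper54.Bal
  Pool.Agent.Helper96.EXP Pool.Agent.BED
open Pool.Agent.LE.MN Pool.Agent.LE.CL Pool.Agent.LE.IR Pool.Agent.LE.QD
open Pool.Agent.ANP (Cfg gm Win)

variable {d M : ℕ} [NeZero M]

/-! ### the network -/

/-- `Δ + V - E`, real -/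
def Hr (V : Tor d M → ℝ) (E : ℝ) : Matrix (Tor d M) (Tor d M) ℝ :=
  adj d M + Matrix.diagonal fun x => V x - E

/-- `(Δ + V - E - i k)⁻¹` -/
def res (V : Tor d M → ℝ) (E : ℝ) (k : Tor d M → ℝ) : Matrix (Tor d M) (Tor d M) ℂ :=
  ANR.Gr (Hr V E) k

/-- the absorption -/
def kap (e₀ : ℝ) (T : Cfg (Tor d M)) (x : Tor d M) : ℝ := e₀ + (T.s x : ℝ) * (T.mb x).im

/-- the effective potential `V - s Re mb` -/
def Vef (T : Cfg (Tor d M)) (x : Tor d M) : ℝ := T.V x - (T.s x : ℝ) * (T.mb x).re

/-- the resolvent of the configuration -/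
def net (E e₀ : ℝ) (T : Cfg (Tor d M)) : Matrix (Tor d M) (Tor d M) ℂ :=
  res (Vef T) E (kap e₀ T)

/-! ### the event `WL` and the failure set -/

/-- `H - E` restricted to `D` has an inverse of norm at most `L` -/
def WLD (E L : ℝ) (V : Tor d M → ℝ) (D : Finset (Tor d M)) : Prop :=
  ∀ u : Tor d M → ℂ, (∀ x, x ∉ D → u x = 0) →
    ∑ x ∈ D, ‖u x‖ ^ 2 ≤ L ^ 2 * ∑ x ∈ D, ‖∑ y, (Hr V E x y : ℂ) * u y‖ ^ 2

/-- for all subsets -/
def WL (E L : ℝ) (V : Tor d M → ℝ) : Prop := ∀ D, WLD E L V D

/-- the dead sites of the configuration already violate `WL` (their potential is the true one) -/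
def Viol (E L : ℝ) (T : Cfg (Tor d M)) : Prop := ∃ D, (∀ x ∈ D, T.s x = 0) ∧ ¬ WLD E L T.V D

end Pool.Agent.AND2B
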