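import Pool.Agent.AND2B.Fin
import Pool.Agent.Helper54_ANI.All
import Pool.Agent.Helper54_AHH.IniF
import Pool.Agent.Helper16_AHH.BegF
import Pool.Agent.Helper61_AHH.Num
import Pool.Agent.Helper10_ABY.CMP
import Pool.Agent.Helper82_ABY.VEX
import Pool.Agent.Helper13_ABY.VFR
import Pool.Agent.Helper99_AND2B.OutF

/-!
# AND2B: the final assembly
-/

set_option autoImplicit false

noncomputable section

namespace Pool.Agent.AND2B

open Pool.Agent.AHH

theorem budT : AHH.H16.BudStmt := fun d a c C _ _ hc _ hC => AHH.H61.budOk d a c C hc hC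

/-- six of the ten fields -/
theorem done (flo : FloF) (fin : FinF) (kil : KilF) (rfin : RfinF) : ANE.FinStmt :=
  fin0 (AHH.ana0 ANI.H54.stbT AHH.H54.ini
    (AHH.H16.begF budT ABY.H10.cmp ABY.H82.vex)
    (AHH.H16.mmonF budT ABY.H10.cmp ABY.H82.vex ABY.H13.vfr)
    flo fin (AHH.H16.rbegF budT)
    (AHH.H16.rmonF budT ABY.H10.cmp ABY.H82.vex ABY.H13.vfr) kil rfin AHH.H99.outF)

end Pool.Agent.AND2B
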