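import Pool.Agent.AND2B.Done
import Pool.Agent.Helper58_AHH.FloFin
import Pool.Agent.Helper96_AHH.FinT
import Pool.Agent.Helper54_AHH.RfinT

/-!
# AND2B: all the fields except `kil`
-/

set_option autoImplicit false

namespace Pool.Agent.AND2B

universe u

/-- only `kil` is left -/
theorem doneK (kil : AHH.KilF) : ANE.FinStmt.{u} :=
  done AHH.H58.floFin AHH.H96.finT kil AHH.H54.rfinT

end Pool.Agent.AND2B
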