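import Pool.Agent.Helper16_AND.Viol
import Pool.Agent.ANI.Stmts2

/-!
# AND2B: the environment, and `Ana0Stmt` from its fields

`Env d`: everything which is given before a configuration. `Ev`: the quantifiers of `Ana0Stmt`, with
`for all sufficiently small` everywhere, so it is closed under conjunctions. The fields of `Ana0` are
handed in one by one as `Ev d a es c C (fun V => field V)`; `ana0` puts them together.
-/

set_option autoImplicit false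

open MeasureTheory ProbabilityTheory

open scoped BigOperators NNReal ENNReal Matrix

noncomputable section

namespace Pool.Agent.AND2B

open Pool.Agent.BED (Tor gau)
open Pool.Agent.ANE (SolT)
open Pool.Agent.ANP
open Pool.Agent.ANP.H16 (Ana0)

/-- everything which is given before a configuration. `m`, `ζ` the gauge and the spectral parameter of
the start. -/
structure Env (d : ℕ) where
  /-- the ratio of the clocks of two consecutive stages -/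
  th : ℝ≥0
  /-- `|Q| ≤ sg (n + 1) ^ (-c₁)` -/
  c₁ : ℝ
  /-- exponent of the size of the blocks -/
  C₁ : ℝ
  /-- ratio of the scales -/
  α : ℕ
  /-- number of bad sub-blocks which are allowed -/
  J : ℕ
  /-- exponent of the failure probabilities -/
  β : ℝ
  /-- the variance -/
  w : ℝ≥0
  /-- the energy -/
  E : ℝ
  /-- the number `ε` of `SolT` -/
  ε : ℝ
  /-- the number `A` of `SolT` -/
  A : ℝ
  /-- the number `R` of `SolT` -/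
  R : ℕ
  /-- the target of the clocks -/
  t : ℝ
  /-- the last super-stage -/
  N : ℕ
  /-- the side of the torus is `2 ^ μ` -/
  μ : ℕ
  /-- the first stage of a super-stage -/
  kk : ℕ → ℕ
  /-- the side of a block of level `n` is `2 ^ l n` -/
  l : ℕ → ℕ
  /-- the radius of the releases of super-stage `n` is `2 ^ r n` -/
  r : ℕ → ℕ
  /-- bounds the number of kills for one cluster -/
  Kn : ℕ → ℕ
  /-- bounds the number of the dead sites of super-stage `n` in a block of level `n` -/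
  Dn : ℕ → ℕ
  /-- the number `L` of the event `WL` -/
  L : ℝ
  /-- the absorption of the dead sites -/
  e₀ : ℝ
  /-- the gauge of the start -/
  m : ℂ
  /-- the spectral parameter of the start -/
  ζ : ℂ

namespace Env

variable {d : ℕ} (V : Env d)

/-- the sites -/
abbrev X : Type := Tor d (2 ^ V.μ)

/-- the geometry -/
abbrev G : Geo V.X := Gt d V.μ V.J V.N V.l V.r

/-- the clocks -/
abbrev cl : ℕ → ℝ≥0 := AND2B.cl V.w V.th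

/-- the clock at the start of a super-stage -/
abbrev sg : ℕ → ℝ := AND2B.sg V.w V.th V.kk

/-- the failure set -/
abbrev F : Set (V.X → ℝ) := FF d (2 ^ V.μ) V.E V.A V.ε V.R V.L

/-- the dead sites violate `WL` -/
abbrev Vi : Cfg V.X → Prop := Viol (d := d) (M := 2 ^ V.μ) V.E V.L

/-- the failure probabilities -/
abbrev p : ℕ → ℝ := pf V.w V.th V.kk V.β V.N

/-- the facts about clocks and dead sites -/
abbrev Fc (n k : ℕ) (P : Finset V.X) (T : Cfg V.X) (run : Finset V.X) : Prop :=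
  ANP.Fc V.G V.kk V.cl V.Dn n k P T run

/-- the scales are as they should be -/
abbrev Sc : Prop := Scal d V.th V.c₁ V.C₁ V.α V.J V.β V.w V.t V.N V.μ V.kk V.l V.r V.Kn V.Dn

end Env

/-- EVENTUALLY: for `th` close to one, `c₁` small, all `C₁`, `α`, `J`, small `β`, `w`, all `E`, small `ε`, all
`A`, `R`, small `t`, all scales, all `L`, small `e₀`. `es` is the `ε` of `Start2`, and `c`, `C` its constants. -/
def Ev (d : ℕ) (a es c C : ℝ) (P : Env d → Prop) : Prop :=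
  ∃ τ₀ k₁ : ℝ, 0 < τ₀ ∧ 0 < k₁ ∧ ∀ (th : ℝ≥0) (c₁ : ℝ), 1 / 2 ≤ th → 1 - τ₀ ≤ (th : ℝ) → th < 1 →
    0 < c₁ → c₁ ≤ k₁ →
    ∀ (C₁ : ℝ) (α J : ℕ), 2 ≤ α → ∃ β₀ w₀ : ℝ, 0 < β₀ ∧ 0 < w₀ ∧ ∀ (β : ℝ) (w : ℝ≥0) (E : ℝ), 0 < β →
      β ≤ β₀ → 0 < w → (w : ℝ) ≤ w₀ → |E| < 2 * d - a →
    ∃ ε₀ : ℝ, 0 < ε₀ ∧ ∀ ε : ℝ, 0 < ε → ε ≤ ε₀ → ∀ (A : ℝ) (R : ℕ),
    ∃ t₀ : ℝ, 0 < t₀ ∧ ∀ t : ℝ, 0 < t → t ≤ t₀ →
    ∀ (N μ : ℕ) (kk l r Kn Dn : ℕ → ℕ), Scal d th c₁ C₁ α J β w t N μ kk l r Kn Dn →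
    ∀ L : ℝ, 1 ≤ L → ∃ e₁ : ℝ, 0 < e₁ ∧ ∀ e₀ : ℝ, 0 < e₀ → e₀ ≤ e₁ →
    ∀ m ζ : ℂ, ANI.Start2 d (2 ^ μ) E e₀ w es m ζ c C →
      P ⟨th, c₁, C₁, α, J, β, w, E, ε, A, R, t, N, μ, kk, l, r, Kn, Dn, L, e₀, m, ζ⟩

section ev

variable {d : ℕ} {a es c C : ℝ} {P Q : Env d → Prop}

theorem Ev.and (hP : Ev d a es c C P) (hQ : Ev d a es c C Q) :
    Ev d a es c C fun V => P V ∧ Q V := by
  obtain ⟨τ, k, hτ, hk, hP⟩ := hP
  obtain ⟨τ', k', hτ', hk', hQ⟩ := hQ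
  refine ⟨min τ τ', min k k', lt_min hτ hτ', lt_min hk hk', ?_⟩
  intro th c₁ h1 h2 h3 h4 h5 C₁ α J hα
  have m1 := min_le_left τ τ'
  have m2 := min_le_right τ τ'
  obtain ⟨β, w, hβ, hw, hP⟩ := hP th c₁ h1 (by linarith) h3 h4 (h5.trans (min_le_left _ _))
    C₁ α J hα
  obtain ⟨β', w', hβ', hw', hQ⟩ := hQ th c₁ h1 (by linarith) h3 h4 (h5.trans (min_le_right _ _))
    C₁ α J hα
  refine ⟨min β β', min w w', lt_min hβ hβ', lt_min hw hw', ?_⟩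
  intro b u E g1 g2 g3 g4 g5
  obtain ⟨ε, hε, hP⟩ := hP b u E g1 (g2.trans (min_le_left _ _)) g3 (g4.trans (min_le_left _ _)) g5
  obtain ⟨ε', hε', hQ⟩ := hQ b u E g1 (g2.trans (min_le_right _ _)) g3
    (g4.trans (min_le_right _ _)) g5
  refine ⟨min ε ε', lt_min hε hε', ?_⟩
  intro e f1 f2 A R
  obtain ⟨t, ht, hP⟩ := hP e f1 (f2.trans (min_le_left _ _)) A R
  obtain ⟨t', ht', hQ⟩ := hQ e f1 (f2.trans (min_le_right _ _)) A R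
  refine ⟨min t t', lt_min ht ht', ?_⟩
  intro s s1 s2 N μ kk l r Kn Dn hS L hL
  obtain ⟨e₁, he, hP⟩ := hP s s1 (s2.trans (min_le_left _ _)) N μ kk l r Kn Dn hS L hL
  obtain ⟨e₁', he', hQ⟩ := hQ s s1 (s2.trans (min_le_right _ _)) N μ kk l r Kn Dn hS L hL
  refine ⟨min e₁ e₁', lt_min he he', ?_⟩
  intro e₀ q1 q2 m ζ hm
  exact ⟨hP e₀ q1 (q2.trans (min_le_left _ _)) m ζ hm,
    hQ e₀ q1 (q2.trans (min_le_right _ _)) m ζ hm⟩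

theorem Ev.imp (h : ∀ V, P V → Q V) (hP : Ev d a es c C P) : Ev d a es c C Q := by
  obtain ⟨τ, k, hτ, hk, hP⟩ := hP
  refine ⟨τ, k, hτ, hk, ?_⟩
  intro th c₁ h1 h2 h3 h4 h5 C₁ α J hα
  obtain ⟨β, w, hβ, hw, hP⟩ := hP th c₁ h1 h2 h3 h4 h5 C₁ α J hα
  refine ⟨β, w, hβ, hw, ?_⟩
  intro b u E g1 g2 g3 g4 g5
  obtain ⟨ε, hε, hP⟩ := hP b u E g1 g2 g3 g4 g5
  refine ⟨ε, hε, ?_⟩
  intro e f1 f2 A R
  obtain ⟨t, ht, hP⟩ := hP e f1 f2 A R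
  refine ⟨t, ht, ?_⟩
  intro s s1 s2 N μ kk l r Kn Dn hS L hL
  obtain ⟨e₁, he, hP⟩ := hP s s1 s2 N μ kk l r Kn Dn hS L hL
  refine ⟨e₁, he, ?_⟩
  intro e₀ q1 q2 m ζ hm
  exact h _ (hP e₀ q1 q2 m ζ hm)

/-- what is known about an environment before `e₀`, `m`, `ζ` are chosen -/
structure Env.Pre {d : ℕ} (V : Env d) (a : ℝ) : Prop where
  th : 1 / 2 ≤ V.th ∧ V.th < 1
  c1 : 0 < V.c₁
  al : 2 ≤ V.α
  be : 0 < V.β
  w : 0 < V.w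
  hE : |V.E| < 2 * d - a
  ep : 0 < V.ε
  ht : 0 < V.t
  sc : V.Sc
  hL : 1 ≤ V.L

/-- what is known about an environment -/
structure Env.Good {d : ℕ} (V : Env d) (a es c C : ℝ) : Prop extends Env.Pre V a where
  e0 : 0 < V.e₀
  st : ANI.Start2 d (2 ^ V.μ) V.E V.e₀ V.w es V.m V.ζ c C

/-- HOW TO PROVE `Ev` (if `ε` and `t` do not matter): `τ₀`, `k₁` from `a`, `c`, `C`; `β₀`, `w₀` from `th`, `c₁`, `C₁`,
`α`, `J`; `e₁` from the environment (without `e₀`, `m`, `ζ`) -/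
theorem Ev.intro (τ₀ k₁ : ℝ) (hτ : 0 < τ₀) (hk : 0 < k₁)
    (h : ∀ (th : ℝ≥0) (c₁ C₁ : ℝ) (α J : ℕ), 1 / 2 ≤ th → 1 - τ₀ ≤ (th : ℝ) → th < 1 → 0 < c₁ →
      c₁ ≤ k₁ → 2 ≤ α → ∃ β₀ w₀ : ℝ, 0 < β₀ ∧ 0 < w₀ ∧ ∀ V : Env d, V.Pre a → V.th = th →
        V.c₁ = c₁ → V.C₁ = C₁ → V.α = α → V.J = J → V.β ≤ β₀ → (V.w : ℝ) ≤ w₀ →
        ∃ e₁ : ℝ, 0 < e₁ ∧ ∀ (e₀ : ℝ) (m ζ : ℂ), 0 < e₀ → e₀ ≤ e₁ →
          ({ V with e₀ := e₀, m := m, ζ := ζ } : Env d).Good a es c C →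
          P { V with e₀ := e₀, m := m, ζ := ζ }) : Ev d a es c C P := by
  refine ⟨τ₀, k₁, hτ, hk, ?_⟩
  intro th c₁ h1 h2 h3 h4 h5 C₁ α J hα
  obtain ⟨β₀, w₀, b1, b2, h⟩ := h th c₁ C₁ α J h1 h2 h3 h4 h5 hα
  refine ⟨β₀, w₀, b1, b2, ?_⟩
  intro b u E g1 g2 g3 g4 g5
  refine ⟨1, one_pos, ?_⟩
  intro e f1 f2 A R
  refine ⟨1, one_pos, ?_⟩
  intro s s1 s2 N μ kk l r Kn Dn hS L hL
  have hpre : (⟨th, c₁, C₁, α, J, b, u, E, e, A, R, s, N, μ, kk, l, r, Kn, Dn, L, 0, 0, 0⟩ :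
      Env d).Pre a := ⟨⟨h1, h3⟩, h4, hα, g1, g3, g5, f1, s1, hS, hL⟩
  obtain ⟨e₁, he, h⟩ := h _ hpre rfl rfl rfl rfl rfl g2 g4
  refine ⟨e₁, he, ?_⟩
  intro e₀ q1 q2 m ζ hm
  exact h e₀ m ζ q1 q2 ⟨⟨⟨h1, h3⟩, h4, hα, g1, g3, g5, f1, s1, hS, hL⟩, q1, hm⟩

/-- the same, if `e₁` does not matter either -/
theorem Ev.intro' (τ₀ k₁ : ℝ) (hτ : 0 < τ₀) (hk : 0 < k₁)
    (h : ∀ (th : ℝ≥0) (c₁ C₁ : ℝ) (α J : ℕ), 1 / 2 ≤ th → 1 - τ₀ ≤ (th : ℝ) → th < 1 → 0 < c₁ →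
      c₁ ≤ k₁ → 2 ≤ α → ∃ β₀ w₀ : ℝ, 0 < β₀ ∧ 0 < w₀ ∧ ∀ V : Env d, V.Good a es c C → V.th = th →
        V.c₁ = c₁ → V.C₁ = C₁ → V.α = α → V.J = J → V.β ≤ β₀ → (V.w : ℝ) ≤ w₀ → P V) :
    Ev d a es c C P := by
  refine Ev.intro τ₀ k₁ hτ hk ?_
  intro th c₁ C₁ α J h1 h2 h3 h4 h5 hα
  obtain ⟨β₀, w₀, b1, b2, h⟩ := h th c₁ C₁ α J h1 h2 h3 h4 h5 hα
  refine ⟨β₀, w₀, b1, b2, ?_⟩
  intro V _ e1 e2 e3 e4 e5 g1 g2
  exact ⟨1, one_pos, fun e₀ m ζ _ _ hG => h _ hG e1 e2 e3 e4 e5 g1 g2⟩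

end ev

/-! ### The fields -/

/-- the predicates of the analysis -/
structure Prd (d : ℕ) where
  /-- start of a stage -/
  HS : (V : Env d) → ℕ → ℕ → Cfg V.X → Finset V.X → Prop
  /-- during a stage -/
  HM : (V : Env d) → ℕ → ℕ → Cfg V.X → Finset V.X → Finset V.X → Cfg V.X → Finset V.X → Prop
  /-- during the release phase -/
  HR : (V : Env d) → ℕ → Cfg V.X → Finset V.X → Finset V.X → Cfg V.X → Finset V.X → Prop

namespace Prd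

variable {d : ℕ} (Z : Prd d) (V : Env d)

def Ini : Prop := Z.HS V 0 0 ⟨fun _ => 0, fun _ => V.cl 0, fun _ => V.m⟩ Finset.univ

def Beg : Prop := ∀ n k T run, n ≤ V.N → V.kk n ≤ k → k < V.kk (n + 1) → V.Fc n k ∅ T run →
    ¬ V.Vi T → Z.HS V n k T run → Z.HM V n k T run ∅ T run

def Mmon : Prop := ∀ n k T₀ run₀ P P' T run run', P ⊆ P' → run' ⊆ run → V.Fc n k P T run →
    V.Fc n k P' T run' → ¬ V.Vi T₀ → ¬ V.Vi T → Z.HS V n k T₀ run₀ →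
    Z.HM V n k T₀ run₀ P T run → Z.HM V n k T₀ run₀ P' T run'

def Flo : Prop := ∀ n k T₀ run₀ P T run B, n ≤ V.N → V.kk n ≤ k → k < V.kk (n + 1) →
    V.G.bl n B = B → Disjoint P (V.G.blk n B) → ¬ V.Vi T₀ → ¬ V.Vi T → Z.HS V n k T₀ run₀ →
    V.Fc n k ∅ T₀ run₀ → V.Fc n k P T run → Z.HM V n k T₀ run₀ P T run →
    gm (fun _ => 0) (T.hv V.th (run ∩ V.G.blk n B))
      {ζ | ¬ (V.Vi (T.hf V.th (run ∩ V.G.blk n B) ζ) ∨
        Z.HM V n k T₀ run₀ (P ∪ V.G.blk n B) (T.hf V.th (run ∩ V.G.blk n B) ζ) run)} ≤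
      ENNReal.ofReal (V.p n)

def Fin : Prop := ∀ n k T₀ run₀ T run, n ≤ V.N → V.kk n ≤ k → k < V.kk (n + 1) →
    ¬ V.Vi T₀ → ¬ V.Vi T → Z.HS V n k T₀ run₀ → V.Fc n k ∅ T₀ run₀ →
    V.Fc n k Finset.univ T run → Z.HM V n k T₀ run₀ Finset.univ T run →
    ∃ m, Z.HS V n (k + 1) (T.rg m) run

def Rbeg : Prop := ∀ n T run, n ≤ V.N → V.Fc n (V.kk (n + 1)) ∅ T run → ¬ V.Vi T →
    Z.HS V n (V.kk (n + 1)) T run → Z.HR V n T run ∅ T run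

def Rmon : Prop := ∀ n T₀ run₀ P P' T run run', P ⊆ P' → run' ⊆ run →
    V.Fc n (V.kk (n + 1)) ∅ T run → V.Fc n (V.kk (n + 1)) ∅ T run' →
    ¬ V.Vi T₀ → ¬ V.Vi T → Z.HS V n (V.kk (n + 1)) T₀ run₀ →
    Z.HR V n T₀ run₀ P T run → Z.HR V n T₀ run₀ P' T run'

def Kil : Prop := ∀ n T₀ run₀ P T run (Q : Finset V.X) (v : V.X → ℝ), n ≤ V.N → 1 ≤ n →
    ¬ V.Vi T₀ → ¬ V.Vi T →
    Z.HS V n (V.kk (n + 1)) T₀ run₀ → V.Fc n (V.kk (n + 1)) ∅ T₀ run₀ →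
    V.Fc n (V.kk (n + 1)) ∅ T run → Z.HR V n T₀ run₀ P T run →
    Q.Nonempty → (∀ x ∈ Q, x ∉ run ∧ 0 < T.s x) → (∀ x ∈ Q, ∀ y ∈ Q, V.G.D x y ≤ 2 * V.G.L n) →
    Q.card ≤ 3 ^ d * V.G.J * (6 * V.G.L (n - 1) + 1) ^ d →
    (∀ x ∈ Q, ∀ y, V.G.D x y ≤ V.G.ρ n → y ∈ Q ∨ y ∈ run ∨ T.s y = 0) →
    (∀ x ∈ Q, ∀ y ∈ P, 3 * V.G.ρ n < V.G.D x y) →
    Att (run ∩ V.G.nbh Q (V.G.ρ n)) Q v (fun T' =>
      (∀ x ∈ Q, T'.V x = v x ∧ T'.s x = 0) ∧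
      ({x ∈ run | T'.s x = 0} : Finset V.X).card ≤ V.Kn n ∧
      (V.Vi T' ∨ Z.HR V n T₀ run₀ (P ∪ V.G.nbh Q (V.G.ρ n)) T' {x ∈ run | T'.s x ≠ 0})) T
        (ENNReal.ofReal (V.p n))

def Rfin : Prop := ∀ n T₀ run₀ P T run run', n ≤ V.N → ¬ V.Vi T₀ → ¬ V.Vi T →
    Z.HS V n (V.kk (n + 1)) T₀ run₀ →
    V.Fc n (V.kk (n + 1)) ∅ T₀ run₀ → V.Fc n (V.kk (n + 1)) ∅ T run →
    Z.HR V n T₀ run₀ P T run → run' ⊆ run → V.Fc (n + 1) (V.kk (n + 1)) ∅ T run' →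
    ∃ m, Z.HS V (n + 1) (V.kk (n + 1)) (T.rg m) run'

def Out : Prop := ∀ T run (a : V.X → ℝ) (r : V.X → ℝ≥0), ¬ V.Vi T →
    Z.HS V (V.N + 1) (V.kk (V.N + 1)) T run →
    V.Fc (V.N + 1) (V.kk (V.N + 1)) ∅ T run → 0 ∈ run →
    (∀ x, x ∉ run → T.s x ≠ 0 → 3 * V.G.ρ (V.N + 1) < V.G.D 0 x) →
    (∀ x, x ∈ run ∨ T.s x = 0 → a x = T.V x ∧ r x = T.s x) → Win V.F a r (1 / 4)

/-- all fields -/
structure All : Prop where
  ini : Z.Ini V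
  beg : Z.Beg V
  mmon : Z.Mmon V
  flo : Z.Flo V
  fin : Z.Fin V
  rbeg : Z.Rbeg V
  rmon : Z.Rmon V
  kil : Z.Kil V
  rfin : Z.Rfin V
  out : Z.Out V

end Prd

/-- the analysis, from its fields -/
theorem Prd.All.ana {d : ℕ} {Z : Prd d} {V : Env d} (h : Z.All V) :
    Nonempty (Ana0 V.G d 0 V.F V.th V.kk V.cl V.Kn V.Dn V.p V.Vi) :=
  ⟨{ HS := Z.HS V, HM := Z.HM V, HR := Z.HR V, m0 := fun _ => V.m, ini := h.ini, beg := h.beg,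
     mmon := h.mmon, flo := h.flo, fin := h.fin, rbeg := h.rbeg, rmon := h.rmon, kil := h.kil,
     rfin := h.rfin, out := h.out }⟩

/-- the field statement in the form in which it is handed in: `Z a es c C` are the predicates, they may
depend on the constants of the start -/
def Fld (Z : (d : ℕ) → ℝ → ℝ → ℝ → ℝ → Prd d) (es : ℝ)
    (fld : {d : ℕ} → Prd d → Env d → Prop) : Prop :=
  ∀ (d : ℕ) (a c C : ℝ), 3 ≤ d → 0 < a → 0 < c → c ≤ 1 / 2 → 1 ≤ C →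
    Ev d a es c C fun V => fld (Z d a es c C) V

/-- ASSEMBLY OF THE FIELDS -/
theorem ana0 (Z : (d : ℕ) → ℝ → ℝ → ℝ → ℝ → Prd d) (es : ℝ) (hes : 0 < es) (hes' : es ≤ 1 / 50)
    (hStb : ANI.StbStmt)
    (ini : Fld Z es Prd.Ini) (beg : Fld Z es Prd.Beg) (mmon : Fld Z es Prd.Mmon)
    (flo : Fld Z es Prd.Flo) (fin : Fld Z es Prd.Fin) (rbeg : Fld Z es Prd.Rbeg)
    (rmon : Fld Z es Prd.Rmon) (kil : Fld Z es Prd.Kil) (rfin : Fld Z es Prd.Rfin)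
    (out : Fld Z es Prd.Out) : H16.Ana0Stmt := by
  intro d a hd ha
  obtain ⟨c, C, hc, hc', hC, hst⟩ := hStb d a es hd ha hes hes'
  have hall : Ev d a es c C fun V => (Z d a es c C).All V := by
    have h := (((((((((ini d a c C hd ha hc hc' hC).and (beg d a c C hd ha hc hc' hC)).and
      (mmon d a c C hd ha hc hc' hC)).and (flo d a c C hd ha hc hc' hC)).and
      (fin d a c C hd ha hc hc' hC)).and (rbeg d a c C hd ha hc hc' hC)).and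
      (rmon d a c C hd ha hc hc' hC)).and (kil d a c C hd ha hc hc' hC)).and
      (rfin d a c C hd ha hc hc' hC)).and (out d a c C hd ha hc hc' hC)
    refine h.imp fun V hV => ?_
    obtain ⟨⟨⟨⟨⟨⟨⟨⟨⟨h1, h2⟩, h3⟩, h4⟩, h5⟩, h6⟩, h7⟩, h8⟩, h9⟩, h10⟩ := hV
    exact ⟨h1, h2, h3, h4, h5, h6, h7, h8, h9, h10⟩
  obtain ⟨τ₀, k₁, hτ, hk, hall⟩ := hall
  -- the ratio of the clocks
  have hth1 : max (1 / 2 : ℝ) (1 - τ₀) < 1 := max_lt (by norm_num) (by linarith)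
  have hth0 : (0 : ℝ) ≤ max (1 / 2 : ℝ) (1 - τ₀) := le_max_of_le_left (by norm_num)
  set th : ℝ≥0 := ⟨max (1 / 2 : ℝ) (1 - τ₀), hth0⟩ with hth
  have hthc : (th : ℝ) = max (1 / 2 : ℝ) (1 - τ₀) := rfl
  have h1 : (1 / 2 : ℝ≥0) ≤ th := by
    rw [← NNReal.coe_le_coe, hthc]
    push_cast
    exact le_max_left _ _
  have h2 : 1 - τ₀ ≤ (th : ℝ) := by
    rw [hthc]
    exact le_max_right _ _
  have h3 : th < 1 := by
    rw [← NNReal.coe_lt_coe, hthc]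
    push_cast
    exact hth1
  refine ⟨th, k₁, h1, h3, hk, fun C₁ α J hα => ?_⟩
  obtain ⟨β₀, w₀, hβ₀, hw₀, hall⟩ := hall th k₁ h1 h2 h3 hk le_rfl C₁ α J hα
  have hC0 : 0 < C := by linarith
  refine ⟨β₀, min w₀ (min c (1 / C)), hβ₀, lt_min hw₀ (lt_min hc (by positivity)), ?_⟩
  intro w E hw hw' hE
  have hwc : (w : ℝ) ≤ c := hw'.trans ((min_le_right _ _).trans (min_le_left _ _))
  have hwC : (w : ℝ) ≤ 1 / C := hw'.trans ((min_le_right _ _).trans (min_le_right _ _))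
  have hw0 : (0 : ℝ) < w := by exact_mod_cast hw
  obtain ⟨ε₀, hε₀, hall⟩ := hall β₀ w E hβ₀ le_rfl hw (hw'.trans (min_le_left _ _)) hE
  refine ⟨ε₀, hε₀, fun A R => ?_⟩
  obtain ⟨t₀, ht₀, hall⟩ := hall ε₀ hε₀ le_rfl A R
  refine ⟨t₀, ht₀, fun N μ kk l r Kn Dn hS L hL => ?_⟩
  obtain ⟨e₁, he₁, hall⟩ := hall t₀ ht₀ le_rfl N μ kk l r Kn Dn hS L hL
  have he : 0 < min e₁ w := lt_min he₁ hw0
  -- the torus is large
  have hM : C / (w : ℝ) ^ 2 ≤ ((2 ^ μ : ℕ) : ℝ) := by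
    have hs1 : sg w th kk (N + 1) ≤ w := by
      unfold sg cl
      push_cast
      have : (th : ℝ) ^ kk (N + 1) ≤ 1 := pow_le_one₀ (NNReal.coe_nonneg _) (by exact_mod_cast h3.le)
      have := mul_le_mul_of_nonneg_left this hw0.le
      linarith
    have hs0 : 0 < sg w th kk (N + 1) := by
      unfold sg cl
      have hthp : (0 : ℝ) < th := by
        rw [hthc]
        exact lt_of_lt_of_le (by norm_num) (le_max_left _ _)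
      push_cast
      positivity
    have h5 : (w : ℝ) ^ (-(5 : ℝ)) ≤ sg w th kk (N + 1) ^ (-(5 : ℝ)) :=
      Real.rpow_le_rpow_of_nonpos hs0 hs1 (by norm_num)
    have h6 := hS.mN
    have h7 : C / (w : ℝ) ^ 2 ≤ (w : ℝ) ^ (-(5 : ℝ)) := by
      rw [Real.rpow_neg hw0.le]
      have e5 : (w : ℝ) ^ (5 : ℝ) = (w : ℝ) ^ 5 := by
        rw [← Real.rpow_natCast]
        norm_num
      rw [e5, div_le_iff₀ (by positivity), inv_mul_eq_div, le_div_iff₀ (by positivity)]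
      have hw1 : (w : ℝ) ≤ 1 := by linarith
      have h8 : C * w ≤ 1 := by
        rw [le_div_iff₀ hC0] at hwC
        linarith
      calc C * (w : ℝ) ^ 5 = (C * w) * ((w : ℝ) ^ 2 * w ^ 2) := by ring
        _ ≤ 1 * ((w : ℝ) ^ 2 * 1) := by
            have : (w : ℝ) ^ 2 ≤ 1 := pow_le_one₀ hw0.le hw1
            gcongr
        _ = (w : ℝ) ^ 2 := by ring
    have h9 : ((2 ^ μ : ℕ) : ℝ) = (2 : ℝ) ^ μ := by push_cast; rfl
    rw [h9]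
    exact h7.trans (h5.trans h6)
  obtain ⟨m, ζ, hm⟩ := hst (2 ^ μ) E (min e₁ w) w hE.le he (min_le_right _ _) hwc hM
  exact (hall (min e₁ w) he (min_le_left _ _) m ζ hm).ana

end Pool.Agent.AND2B
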