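import Pool.Agent.Helper16_AND.Viol
import Pool.Agent.Helper16_ANP.PrtE
import Pool.Agent.Helper49_ANP.Lab
import Pool.Agent.Helper72_ANP.SepRows
import Pool.Agent.Helper72_ANE.All
import Pool.Agent.Helper90_ANE.MS3
import Pool.Agent.Helper61_ANP.SclM
import Pool.Agent.Helper99_AND2B.WLP

/-!
# AND2B: everything except the analysis

`Ana0Stmt` is the only hypothesis: continuous spectrum in the bulk at weak disorder.
-/

set_option autoImplicit false

noncomputable section

namespace Pool.Agent.AND2B

/-- the reduction of the whole theorem to `Ana0Stmt` -/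
theorem fin0 (h : H16.Ana0Stmt) : ANE.FinStmt :=
  ANE.H72.finT (top (ANP.H16.prt (ANP.H49.lab ANP.H72.sep ANP.H72.se2)) ANP.H61.scl
    (H16.ana_stmt h) H99.wlp H99.msw ANE.H90.ms3)

end Pool.Agent.AND2B
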