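import Pool.Agent.AND2B.Base
import Pool.Agent.ANE.Stmts3

/-!
# AND2B (MP_1906c1_mp): statements around the event `WL`, the end of the protocol
-/

set_option autoImplicit false

open MeasureTheory ProbabilityTheory

open scoped BigOperators NNReal ENNReal Matrix

noncomputable section

namespace Pool.Agent.AND2B

open Pool.Agent.Anderson hiding box mem_box card_box
open Pool.Agent.Loc Pool.Agent.Mob Pool.Agent.Helper54.Bal
  Pool.Agent.Helper96.EXP Pool.Agent.BED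
open Pool.Agent.LE.MN Pool.Agent.LE.CL Pool.Agent.LE.IR Pool.Agent.LE.QD
open Pool.Agent.ANP (Cfg gm Win)
open Pool.Agent.ANE (SolT)

variable {d M : ℕ} [NeZero M]

/-- the failure set of the protocol -/
def FF (d M : ℕ) [NeZero M] (E A ε : ℝ) (R : ℕ) (L : ℝ) : Set (Tor d M → ℝ) :=
  {U | WL E L U ∧ SolT d M E A ε R U}

/-- a cutoff which does not change across the bonds which touch `D` -/
def Plat (D : Finset (Tor d M)) : Prop :=
  ∃ φ : Tor d M → ℕ, φ 0 = 0 ∧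
    (∀ x i, φ (x + ev i) ≤ φ x + 1 ∧ φ x ≤ φ (x + ev i) + 1) ∧
    (∀ x i, x ∈ D ∨ x + ev i ∈ D → φ (x + ev i) = φ x) ∧
    ∀ x, M < 4 * sd 0 (rep x) → M ≤ 16 * φ x

/-- WLP: the probability of `WL` tends to one. Proof: for fixed `D` the determinant of `H - E` restricted
to `D` is a polynomial in `V` of degree one in every variable, with the coefficient `1` at `∏_(x ∈ D) V x`,
so the set where it vanishes is a null set (Fubini along `V + t 1`, or induction); off these sets every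
`H_DD - E` is invertible, so `WLD E L V D` for large `L`; finitely many `D`; continuity of the measure. -/
def WlpStmt : Prop :=
  ∀ (d M : ℕ) [NeZero M] (E δ : ℝ) (v : ℝ≥0), v ≠ 0 → 0 < δ → ∃ L : ℝ, 1 ≤ L ∧
    gau d M v {U | ¬ WL E L U} ≤ ENNReal.ofReal δ

/-- MSW: measurability: `WLD` is a family of closed conditions. -/
def MswStmt : Prop :=
  ∀ (d M : ℕ) [NeZero M] (E L : ℝ), MeasurableSet {U : Tor d M → ℝ | WL E L U}

/-- FLX: the dead sites have no effect. Proof: let `u = res f`, `(H - E - i k) u = f`, `A` the complement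
of `D`. On `D`: `(H_DD - E) u_D = f_D + i e₀ u_D - (Δ u_A)_D`, so
`|u_D| ≤ L (|f| + 2 d |u_A| + e₀ |u_D|)`, `|u_D| ≤ 2 L (|f| + 2 d |u_A|)` as `2 L e₀ ≤ 1`. Imaginary part:
`kv |u_A|² ≤ |u| |f|`. So `|u| ≤ C L² / kv |f|`, and `∑_(b ∈ D) e₀ |G_xb|² ≤ e₀ (C L²/kv)²`. -/
def FlxStmt : Prop :=
  ∀ d : ℕ, ∃ C : ℝ, 1 ≤ C ∧ ∀ (M : ℕ) [NeZero M] (V k : Tor d M → ℝ) (E L e₀ kv : ℝ)
    (D : Finset (Tor d M)), 1 ≤ L → 0 < e₀ → 2 * L * e₀ ≤ 1 → 0 < kv → kv ≤ 1 →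
    (∀ x ∈ D, k x = e₀) → (∀ x, x ∉ D → kv ≤ k x) → WLD E L V D →
      (∀ u : Tor d M → ℂ, ∑ x, ‖∑ y, res V E k x y * u y‖ ^ 2 ≤
        (C * L ^ 2 / kv) ^ 2 * ∑ x, ‖u x‖ ^ 2) ∧
      ∀ x, ∑ b ∈ D, k b * ‖res V E k x b‖ ^ 2 ≤ e₀ * (C * L ^ 2 / kv) ^ 2

/-- OUTW (uses `ANE.OutStmt`): the end. `T` is the final configuration with the clock `s` at the running
sites `run`, all the other sites are dead (`V` there is the true potential). Proof: with probability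
`≥ 3/4` under `gm T.V T.s` both `∑_(x ∈ run) (U x - T.V x)² |u_x|² ≤ 8 s ∑_run |u_x|²` and
`(U x - T.V x)² ≤ 8 (2 R + 1)^d s` for `sd 0 (rep x) ≤ R` hold (Markov); `s ∑_run |u_x|² ≤ Im u_0 / c₀`
(`GEQ`), `|U - Vef| ≤ |U - T.V| + C₀ s`; then `OutStmt` with `χ = max 0 (1 - 16 φ / M)`. -/
def OutWStmt : Prop :=
  ∀ (d : ℕ) (c₀ C₀ b : ℝ), 0 < c₀ → 1 ≤ C₀ → 0 < b → ∃ ε : ℝ, 0 < ε ∧ ∀ (A : ℝ) (R : ℕ),
    ∃ s₁ : ℝ, 0 < s₁ ∧ ∀ (M : ℕ) [NeZero M] (E e₀ L : ℝ) (s : ℝ≥0) (T : Cfg (Tor d M))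
      (run : Finset (Tor d M)), 0 < s → (s : ℝ) ≤ s₁ → 1 ≤ (s : ℝ) ^ 2 * M → 0 < e₀ → e₀ ≤ s ^ 2 →
      (∀ x ∈ run, T.s x = s ∧ c₀ ≤ (T.mb x).im ∧ ‖T.mb x‖ ≤ C₀) → (∀ x, x ∉ run → T.s x = 0) →
      (∀ x ∈ run, ‖net E e₀ T x 0‖ ≤ C₀) → 0 ∈ run → b ≤ (net E e₀ T 0 0).im →
      Plat (Finset.univ \ run) →
        Win (FF d M E A ε R L) T.V T.s (1 / 4)

end Pool.Agent.AND2B
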